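import Pool.Agent.Q78.SG.Sub

set_option autoImplicit false

/-!
# Groups of `4 ^ k` equal multiplicities; one open set for all degrees of the subdivision closure
-/

namespace Pool.Agent.Q54.SC

open MvPolynomial Pool.Agent.TH545.SD Pool.Agent.Q78.SG.Sub
open Pool.Agent.H932R3 (ExpDim)
open Pool.Agent.TH641.UM Pool.Agent.TH603.Sur Pool.Agent.TH176.Nag

/-- `4 ^ k N` points of multiplicity `x` instead of `N` points of multiplicity about `2 ^ k x`. -/
theorem pow4 {d : ℕ} (k : ℕ) : ∀ (N x : ℕ) (e : Multiset ℕ), 1 ≤ N → 1 ≤ x →
    (∀ y, 2 ^ k * x ≤ y → y < 2 ^ k * (x + 1) → System d (Multiset.replicate N y + e)) →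
    System d (Multiset.replicate (4 ^ k * N) x + e) := by
  induction k with
  | zero =>
    intro N x e _ _ h
    simpa using h x (by simp) (by simp)
  | succ k ih =>
    intro N x e hN hx h
    have h1 := ih N (2 * x) e hN (by omega) fun y hy1 hy2 => h y (by
      rw [pow_succ]; calc 2 ^ k * 2 * x = 2 ^ k * (2 * x) := by ring
        _ ≤ y := hy1) (by
      refine hy2.trans_le ?_
      rw [pow_succ]
      calc 2 ^ k * (2 * x + 1) ≤ 2 ^ k * (2 * (x + 1)) := Nat.mul_le_mul_left _ (by omega)
        _ = 2 ^ k * 2 * (x + 1) := by ring)
    have h2 := ih N (2 * x + 1) e hN (by omega) fun y hy1 hy2 => h y (by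
      refine le_trans ?_ hy1
      rw [pow_succ]
      calc 2 ^ k * 2 * x = 2 ^ k * (2 * x) := by ring
        _ ≤ 2 ^ k * (2 * x + 1) := Nat.mul_le_mul_left _ (by omega)) (by
      refine hy2.trans_le ?_
      rw [pow_succ]
      exact (by ring : 2 ^ k * (2 * x + 1 + 1) = 2 ^ k * 2 * (x + 1)).le)
    have hN' : 1 ≤ 4 ^ k * N := Nat.one_le_iff_ne_zero.2 (by positivity)
    have h3 := System.four hN' (by omega) h1 h2
    have e1 : 2 * x / 2 = x := by omega
    have e2 : (2 * x + 1) / 2 = x := by omega
    rw [e1, e2] at h3
    have e3 : ((4 ^ k * N) • ({x, x, x, x} : Multiset ℕ)) = Multiset.replicate (4 ^ (k + 1) * N) x := by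
      have : ({x, x, x, x} : Multiset ℕ) = Multiset.replicate 4 x := rfl
      rw [this, ← Multiset.nsmul_singleton, ← Multiset.nsmul_singleton, smul_smul]
      congr 1
      ring
    rw [e3] at h3
    exact h3

/-- The multiset in which the first `m` groups are already subdivided. -/
def part {t : ℕ} (x k b : Fin t → ℕ) (m : ℕ) : Multiset ℕ :=
  ∑ j : Fin t, if (j : ℕ) < m then Multiset.replicate (4 ^ k j) (x j) else {b j}

theorem groups_aux {t d : ℕ} (x k : Fin t → ℕ) (hx : ∀ j, 1 ≤ x j) (E : Multiset ℕ)
    (h : ∀ b : Fin t → ℕ, (∀ j, 2 ^ k j * x j ≤ b j ∧ b j < 2 ^ k j * (x j + 1)) →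
      System d (mults b + E)) :
    ∀ m : ℕ, m ≤ t → ∀ b : Fin t → ℕ, (∀ j, 2 ^ k j * x j ≤ b j ∧ b j < 2 ^ k j * (x j + 1)) →
      System d (part x k b m + E) := by
  classical
  intro m
  induction m with
  | zero =>
    intro _ b hb
    have h1 : part x k b 0 = mults b := by
      rw [mults_sum]
      unfold part
      exact Finset.sum_congr rfl fun j _ => if_neg (Nat.not_lt_zero _)
    rw [h1]
    exact h b hb
  | succ m ih =>
    intro hm b hb
    obtain ⟨kk, hkk⟩ : ∃ kk : Fin t, (kk : ℕ) = m := ⟨⟨m, by omega⟩, rfl⟩
    obtain ⟨R, hR⟩ : ∃ R : Multiset ℕ, R = ∑ j ∈ Finset.univ.erase kk,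
      (if (j : ℕ) < m then Multiset.replicate (4 ^ k j) (x j) else {b j}) := ⟨_, rfl⟩
    have e1 : part x k b (m + 1) = Multiset.replicate (4 ^ k kk * 1) (x kk) + R := by
      unfold part
      rw [← Finset.add_sum_erase _ _ (Finset.mem_univ kk), if_pos (by omega), hR, mul_one]
      congr 1
      refine Finset.sum_congr rfl fun j hj => ?_
      have h2 : j ≠ kk := Finset.ne_of_mem_erase hj
      have h3 : (j : ℕ) ≠ m := fun h => h2 (Fin.ext (h.trans hkk.symm))
      by_cases h4 : (j : ℕ) < m
      · rw [if_pos h4, if_pos (by omega)]
      · rw [if_neg h4, if_neg (by omega)]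
    have e2 : ∀ y, part x k (Function.update b kk y) m = Multiset.replicate 1 y + R := by
      intro y
      unfold part
      rw [← Finset.add_sum_erase _ _ (Finset.mem_univ kk), if_neg (by omega),
        Function.update_self, hR]
      congr 1
      refine Finset.sum_congr rfl fun j hj => ?_
      rw [Function.update_of_ne (Finset.ne_of_mem_erase hj)]
    rw [e1, add_assoc]
    refine pow4 (k kk) 1 (x kk) (R + E) le_rfl (hx kk) fun y hy1 hy2 => ?_
    rw [← add_assoc, ← e2 y]
    refine ih (by omega) (Function.update b kk y) fun j => ?_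
    by_cases hj : j = kk
    · subst hj
      rw [Function.update_self]
      exact ⟨hy1, hy2⟩
    · rw [Function.update_of_ne hj]
      exact hb j

/-- At most nine groups of `4 ^ (k j)` equal multiplicities `x j`, and any multiplicities at most two. -/
theorem groups {t d : ℕ} (ht : 4 ≤ t) (ht9 : t ≤ 9) (x k : Fin t → ℕ) (hx : ∀ j, 1 ≤ x j)
    (h3 : ∀ j, 3 ≤ 2 ^ k j * (x j + 1)) (E : Multiset ℕ) (hE : ∀ a ∈ E, a ≤ 2)
    (hd : ∀ i j l : Fin t, i ≠ j → i ≠ l → j ≠ l →
      2 ^ k i * (x i + 1) + 2 ^ k j * (x j + 1) + 2 ^ k l * (x l + 1) ≤ d + 3) :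
    System d (∑ j : Fin t, Multiset.replicate (4 ^ k j) (x j) + E) := by
  classical
  have key : ∀ b : Fin t → ℕ, (∀ j, 2 ^ k j * x j ≤ b j ∧ b j < 2 ^ k j * (x j + 1)) →
      System d (mults b + E) := by
    intro b hb
    obtain ⟨s, u, rfl⟩ := exists_mults E
    have hu : ∀ i, u i ≤ 2 := fun i => hE _ (mem_mults u i)
    rw [← mults_append]
    -- the majorant
    let c : Fin (t + s) → ℕ := Fin.append (fun j => 2 ^ k j * (x j + 1) - 1) (fun _ => 2)
    have hc2 : ∀ i, 2 ≤ c i := by
      intro i
      induction i using Fin.addCases with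
      | left i => simp only [c, Fin.append_left]; have := h3 i; omega
      | right i => simp only [c, Fin.append_right]; omega
    have hle : ∀ i, Fin.append b u i ≤ c i := by
      intro i
      induction i using Fin.addCases with
      | left i => simp only [c, Fin.append_left]; have := (hb i).2; omega
      | right i => simp only [c, Fin.append_right]; exact hu i
    have F3 : ∀ i j l : Fin t, i ≠ j → i ≠ l → j ≠ l →
        (2 ^ k i * (x i + 1) - 1) + (2 ^ k j * (x j + 1) - 1) + (2 ^ k l * (x l + 1) - 1) ≤ d := by
      intro i j l h1 h2 h4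
      have := hd i j l h1 h2 h4
      have := h3 i
      have := h3 j
      have := h3 l
      omega
    have hother : ∀ i j : Fin t, ∃ l : Fin t, i ≠ l ∧ j ≠ l := by
      intro i j
      by_contra hcon
      push Not at hcon
      have h1 : (Finset.univ : Finset (Fin t)) ⊆ {i, j} := fun l _ => by
        rw [Finset.mem_insert, Finset.mem_singleton]
        by_contra h2
        push Not at h2
        exact h2.2 (hcon l h2.1.symm).symm
      have h2 := Finset.card_le_card h1
      rw [Finset.card_univ, Fintype.card_fin] at h2
      have h3 : ({i, j} : Finset (Fin t)).card ≤ 2 := Finset.card_le_two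
      omega
    have F2 : ∀ i j : Fin t, i ≠ j →
        (2 ^ k i * (x i + 1) - 1) + (2 ^ k j * (x j + 1) - 1) + 2 ≤ d := by
      intro i j hij
      obtain ⟨l, h1, h2⟩ := hother i j
      have := F3 i j l hij h1 h2
      have := h3 l
      omega
    have F1 : ∀ i : Fin t, (2 ^ k i * (x i + 1) - 1) + 2 + 2 ≤ d := by
      intro i
      obtain ⟨j, h1, -⟩ := hother i i
      have := F2 i j h1
      have := h3 j
      omega
    have F0 : 6 ≤ d := by
      have := F1 ⟨0, by omega⟩
      have := h3 ⟨0, by omega⟩
      omega
    refine System.nine (by omega) _ ?_ ?_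
    · intro i j l hij hil hjl
      refine le_trans (Nat.add_le_add (Nat.add_le_add (hle i) (hle j)) (hle l)) ?_
      induction i using Fin.addCases with
      | left i =>
        induction j using Fin.addCases with
        | left j =>
          have hij' : i ≠ j := fun h => hij (by rw [h])
          induction l using Fin.addCases with
          | left l =>
            simp only [c, Fin.append_left]
            exact F3 i j l hij' (fun h => hil (by rw [h])) (fun h => hjl (by rw [h]))
          | right l =>
            simp only [c, Fin.append_left, Fin.append_right]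
            exact F2 i j hij'
        | right j =>
          induction l using Fin.addCases with
          | left l =>
            simp only [c, Fin.append_left, Fin.append_right]
            have := F2 i l (fun h => hil (by rw [h]))
            omega
          | right l =>
            simp only [c, Fin.append_left, Fin.append_right]
            exact F1 i
      | right i =>
        induction j using Fin.addCases with
        | left j =>
          induction l using Fin.addCases with
          | left l =>
            simp only [c, Fin.append_left, Fin.append_right]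
            have := F2 j l (fun h => hjl (by rw [h]))
            omega
          | right l =>
            simp only [c, Fin.append_left, Fin.append_right]
            have := F1 j
            omega
        | right j =>
          induction l using Fin.addCases with
          | left l =>
            simp only [c, Fin.append_left, Fin.append_right]
            have := F1 l
            omega
          | right l =>
            simp only [c, Fin.append_right]
            omega
    · refine le_trans (Finset.card_le_card (t := Finset.univ.map (Fin.castAddEmb s)) ?_) ?_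
      · intro i hi
        rw [Finset.mem_filter] at hi
        rw [Finset.mem_map]
        induction i using Fin.addCases with
        | left i => exact ⟨i, Finset.mem_univ _, rfl⟩
        | right i =>
          rw [Fin.append_right] at hi
          have := hu i
          omega
      · rw [Finset.card_map, Finset.card_univ, Fintype.card_fin]
        exact ht9
  have h1 := groups_aux x k hx E key t le_rfl (fun j => 2 ^ k j * x j) fun j =>
    ⟨le_rfl, Nat.mul_lt_mul_of_pos_left (Nat.lt_succ_self _) (by positivity)⟩
  have h2 : part x k (fun j => 2 ^ k j * x j) t = ∑ j : Fin t, Multiset.replicate (4 ^ k j) (x j) := by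
    unfold part
    exact Finset.sum_congr rfl fun j _ => if_pos j.2
  rw [h2] at h1
  exact h1

/-- One open set of points for all degrees `d` such that `(d; w)` is in the closure. -/
theorem all_degrees {n : ℕ} (w : Fin n → ℕ) :
    ∃ F : MvPolynomial (Fin n × Fin 2) ℚ, F ≠ 0 ∧ ∀ {L : Type} [Field L] [CharZero L]
      (P : Fin n → Fin 2 → L), aeval (fun ij : Fin n × Fin 2 => P ij.1 ij.2) F ≠ 0 →
      ∀ d, System d (mults w) → ExpDim L w P d := by
  have hgd : ∀ d, System d (mults w) →
      ((d + 2).choose 2 ≤ cond w → Emp w (TZ d)) ∧ (cond w ≤ (d + 2).choose 2 → Sur w (TZ d)) := by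
    intro d h
    have h1 : GD d (Pool.Agent.TH641.UM.ms w) := by
      rw [← ms_map w]
      exact h.gd
    exact h1 w rfl
  obtain ⟨F, hF, hF'⟩ := expDim_two (w := w)
    (A := fun d => System d (mults w) ∧ (d + 2).choose 2 ≤ cond w)
    (B := fun d => System d (mults w) ∧ cond w ≤ (d + 2).choose 2) (cond w)
    (fun d hd => by
      have h1 : d ≤ (d + 2).choose 2 := by
        rw [Nat.choose_two_right]
        rw [Nat.le_div_iff_mul_le (by norm_num)]
        have : d + 2 - 1 = d + 1 := rfl
        rw [this]
        nlinarith
      exact h1.trans hd.2)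
    (fun d hd => (hgd d hd.1).1 hd.2) (fun d hd => (hgd d hd.1).2 hd.2)
  refine ⟨F, hF, fun {L} _ _ P hP d hd => hF' P hP d ?_⟩
  rcases le_total ((d + 2).choose 2) (cond w) with h | h
  · exact Or.inl ⟨hd, h⟩
  · exact Or.inr ⟨hd, h⟩

end Pool.Agent.Q54.SC
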