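import Pool.Agent.Q310.FP.Gen
import Pool.Agent.Q78.SG.Seg

set_option autoImplicit false

/-!
# The multiples of a negative curve are special
-/

namespace Pool.Agent.Q54.SC

open MvPolynomial Pool.Agent.TH167 Pool.Agent.TH167.SHDefs Pool.Agent.Q310.FP
open Pool.Agent.Q78.SG.Sub (System mults)

/-- If `C` is an irreducible curve with `C ^ 2 < 0 < K C` at generic points, no multiple of its class
has the expected dimension. -/
theorem multiple_special {n : ℕ} {K : Type} [Field K] [CharZero K] {P : Fin n → Fin 2 → K}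
    (hP : AlgebraicIndependent ℚ (fun ij : Fin n × Fin 2 => P ij.1 ij.2))
    {d : ℕ} {w : Fin n → ℕ} {G : MvPolynomial (Fin 3) K}
    (hC : Curve P G d w) (hneg : inter d w d w < 0) (hK : 0 < interK d w) {k : ℕ} (hk : 1 ≤ k) :
    ¬ GE (k * d) (fun i => k * w i) := by
  classical
  intro hGE
  have h8 := hGE K P hP
  rw [TH442.NF.expDim_iff] at h8
  have hhom : (G ^ k).IsHomogeneous (k * d) := by
    have := hC.homogeneous.pow k
    rwa [mul_comm] at this
  have hmem : G ^ k ∈ W609.CR.VS (fun j => W609.CR.aff (P j)) (fun i => k * w i) (k * d) := by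
    refine (SH.mem_VS _ _ _ _).2 ⟨hhom, fun j => ?_⟩
    have h1 := Ideal.pow_mem_pow (hC.mult j).1 k
    rw [← pow_mul, mul_comm] at h1
    exact (W609.CR.t_link K (P j) (k * w j) (G ^ k) (k * d) hhom).2 h1
  have hfin := W609.CR.vs_fin (fun j => W609.CR.aff (P j)) (fun i => k * w i) (k * d)
  have hpos' : 0 < Module.finrank K ↥(W609.CR.VS (fun j => W609.CR.aff (P j)) (fun i => k * w i) (k * d)) :=
    Module.finrank_pos_iff.2 ⟨⟨G ^ k, hmem⟩, 0, fun h7 =>
      pow_ne_zero k hC.irreducible.ne_zero (congrArg Subtype.val h7)⟩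
  have h9 := SH.two_chi (k * d) (fun i => k * w i)
  have h10 : SH.ip (k * d) (fun i => k * w i) (k * d) (fun i => k * w i) = (k : ℤ) ^ 2 * SH.ip d w d w := by
    unfold SH.ip
    rw [mul_sub, Finset.mul_sum]
    congr 1
    · push_cast
      ring
    · refine Finset.sum_congr rfl fun i _ => ?_
      push_cast
      ring
  have h11 : SH.kk (k * d) (fun i => k * w i) = (k : ℤ) * SH.kk d w := by
    unfold SH.kk
    push_cast
    rw [← Finset.mul_sum]
    ring
  rw [SH.inter_eq] at hneg
  rw [SH.interK_eq] at hK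
  have hk' : (1 : ℤ) ≤ k := by exact_mod_cast hk
  have h12 : SH.chi (k * d) (fun i => k * w i) ≤ 0 := by
    rw [h10, h11] at h9
    have a1 : (k : ℤ) ^ 2 * SH.ip d w d w ≤ -1 := by nlinarith
    have a2 : (k : ℤ) * SH.kk d w ≤ -1 := by nlinarith
    omega
  rw [max_eq_left h12] at h8
  omega

/-- It is not in the subdivision closure. -/
theorem multiple_not_system {n : ℕ} {K : Type} [Field K] [CharZero K] {P : Fin n → Fin 2 → K}
    (hP : AlgebraicIndependent ℚ (fun ij : Fin n × Fin 2 => P ij.1 ij.2))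
    {d : ℕ} {w : Fin n → ℕ} {G : MvPolynomial (Fin 3) K}
    (hC : Curve P G d w) (hneg : inter d w d w < 0) (hK : 0 < interK d w) {k : ℕ} (hk : 1 ≤ k) :
    ¬ System (k * d) (mults fun i => k * w i) := fun h =>
  multiple_special hP hC hneg hK hk (Pool.Agent.Q78.SG.Seg.ge_of_system h)

end Pool.Agent.Q54.SC
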